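import Mathlib

set_option autoImplicit false
open scoped TensorProduct
open MvPolynomial

namespace Pool.Agent.Results.MP_8363a4_al.LowerBound

section Milnor

variable (F : Type) [Field F] (n : ℕ)

/-- The `n`-fold tensor power over `ℤ` of the multiplicative group of `F`. -/
abbrev Tens : Type := ⨂[ℤ] _ : Fin n, Additive Fˣ

/-- The subgroup generated by the tensors `a₁ ⊗ ⋯ ⊗ aₙ` with `aᵢ + aⱼ = 1` for some `i ≠ j`. -/
def steinberg : Submodule ℤ (Tens F n) :=
  Submodule.span ℤ {t | ∃ a : Fin n → Fˣ, (∃ i j, i ≠ j ∧ (a i : F) + (a j : F) = 1) ∧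
    t = PiTensorProduct.tprod ℤ fun i => Additive.ofMul (a i)}

/-- The Milnor K-group `K_n^M(F)`. -/
abbrev MilnorK : Type := Tens F n ⧸ steinberg F n

/-- The group `K_n^M(F)/ℓ`. -/
abbrev MilnorKMod (ℓ : ℕ) : Type :=
  MilnorK F n ⧸ LinearMap.range (LinearMap.lsmul ℤ (MilnorK F n) (ℓ : ℤ))

/-- The class in `K_n^M(F)/ℓ` of the symbol `{a₁, …, aₙ}`. -/
def symbol (ℓ : ℕ) (a : Fin n → Fˣ) : MilnorKMod F n ℓ :=
  Submodule.Quotient.mk (Submodule.Quotient.mk (PiTensorProduct.tprod ℤ fun i => Additive.ofMul (a i)))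

/-- `ξ` is a sum of `r` classes of symbols. -/
def IsSumOfSymbols (ℓ r : ℕ) (ξ : MilnorKMod F n ℓ) : Prop :=
  ∃ a : Fin r → Fin n → Fˣ, ξ = ∑ i, symbol F n ℓ (a i)

/-- The symbol length of `K_n^M(F)/ℓ`: the supremum over all classes of the least number of
symbols needed. -/
noncomputable def symbolLength (ℓ : ℕ) : ℕ∞ :=
  ⨆ ξ : MilnorKMod F n ℓ, ⨅ (r : ℕ) (_ : IsSumOfSymbols F n ℓ r ξ), (r : ℕ∞)

end Milnor

/-- The field `ℂ(x₁, …, x_m)`. -/
abbrev RatField (m : ℕ) : Type := FractionRing (MvPolynomial (Fin m) ℂ)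

/-! ### linear algebra -/

/-- the matrix with first column `u` and other columns `w (c b)` -/
def cm {K : Type} {d k : ℕ} (u : Fin (k + 1) → K) (w : Fin (k + 1) → Fin d → K) (c : Fin k → Fin d) :
    Matrix (Fin (k + 1)) (Fin (k + 1)) K :=
  Matrix.of fun a => Fin.cons (u a) fun b => w a (c b)

theorem det_cm {K : Type} [Field K] {d k : ℕ} (u : Fin (k + 1) → K) (w : Fin (k + 1) → Fin d → K)
    (c : Fin k → Fin d) :
    (cm u w c).det = ∑ i : Fin (k + 1), (-1) ^ (i : ℕ) * u i *
      (Matrix.of fun a b : Fin k => w (i.succAbove a) (c b)).det := by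
  rw [Matrix.det_succ_column_zero]
  apply Finset.sum_congr rfl
  intro i _
  have h : (cm u w c).submatrix i.succAbove Fin.succ =
      Matrix.of fun a b : Fin k => w (i.succAbove a) (c b) := by
    ext a b
    simp [cm]
  have h2 : cm u w c i 0 = u i := by simp [cm]
  rw [h, h2]

def linM {K : Type} [Field K] (d q r : ℕ) (w : Fin r → Fin (q + 2) → Fin d → K) :
    (Fin r → Fin (q + 2) → K) →ₗ[K] ({s : Finset (Fin d) // s.card = q + 1} → K) where
  toFun := fun τ J => ∑ i, (cm (τ i) (w i) (J.1.orderEmbOfFin J.2)).det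
  map_add' := by
    intro x y
    funext J
    simp only [det_cm, Pi.add_apply, mul_add, add_mul, Finset.sum_add_distrib]
  map_smul' := by
    intro k x
    funext J
    simp only [det_cm, Pi.smul_apply, smul_eq_mul, RingHom.id_apply, Finset.mul_sum]
    apply Finset.sum_congr rfl
    intro i _
    apply Finset.sum_congr rfl
    intro j _
    ring

theorem linM_apply {K : Type} [Field K] (d q r : ℕ) (w : Fin r → Fin (q + 2) → Fin d → K)
    (τ : Fin r → Fin (q + 2) → K) (J : {s : Finset (Fin d) // s.card = q + 1}) :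
    linM d q r w τ J = ∑ i, (cm (τ i) (w i) (J.1.orderEmbOfFin J.2)).det := rfl

def linKap {K : Type} [Field K] (d q r : ℕ) (w : Fin r → Fin (q + 2) → Fin d → K) :
    (Fin d → K) →ₗ[K] (Fin r → Fin (q + 2) → K) where
  toFun := fun ξ i a => ∑ c, ξ c * w i a c
  map_add' := by
    intro x y
    funext i a
    simp only [Pi.add_apply, add_mul, Finset.sum_add_distrib]
  map_smul' := by
    intro k x
    funext i a
    simp only [Pi.smul_apply, smul_eq_mul, RingHom.id_apply, Finset.mul_sum, mul_assoc]

theorem linKap_apply {K : Type} [Field K] (d q r : ℕ) (w : Fin r → Fin (q + 2) → Fin d → K)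
    (ξ : Fin d → K) (i : Fin r) (a : Fin (q + 2)) :
    linKap d q r w ξ i a = ∑ c, ξ c * w i a c := rfl

theorem linM_kap {K : Type} [Field K] (d q r : ℕ) (w : Fin r → Fin (q + 2) → Fin d → K)
    (H1 : ∀ c : Fin (q + 2) → Fin d, ∑ i, Matrix.det (Matrix.of fun a b => w i a (c b)) = 0)
    (ξ : Fin d → K) : linM d q r w (linKap d q r w ξ) = 0 := by
  funext J
  rw [linM_apply]
  have h1 : ∀ i : Fin r, (cm (linKap d q r w ξ i) (w i) (J.1.orderEmbOfFin J.2)).det =
      ∑ c, ξ c * (Matrix.of fun a b => w i a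
        ((Fin.cons c (J.1.orderEmbOfFin J.2) : Fin (q + 2) → Fin d) b)).det := by
    intro i
    have h2 : ∀ c : Fin d, (Matrix.of fun a b => w i a
        ((Fin.cons c (J.1.orderEmbOfFin J.2) : Fin (q + 2) → Fin d) b)) =
        cm (fun a => w i a c) (w i) (J.1.orderEmbOfFin J.2) := by
      intro c
      ext a b
      refine Fin.cases ?_ (fun b => ?_) b
      · simp [cm]
      · simp [cm]
    simp only [h2, det_cm, linKap_apply, Finset.mul_sum, Finset.sum_mul]
    rw [Finset.sum_comm]
    apply Finset.sum_congr rfl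
    intro c _
    apply Finset.sum_congr rfl
    intro a _
    ring
  simp only [h1]
  rw [Finset.sum_comm]
  show _ = (0 : K)
  apply Finset.sum_eq_zero
  intro c _
  rw [← Finset.mul_sum, H1, mul_zero]

/-- a zero row -/
theorem det_row_zero {K : Type} [Field K] {n : ℕ} {X : Type} [DecidableEq X] (f g : Fin n → X)
    (a : Fin n) (h : ∀ b, f a ≠ g b) :
    Matrix.det (Matrix.of fun a b : Fin n => if f a = g b then (1 : K) else 0) = 0 := by
  apply Matrix.det_eq_zero_of_row_eq_zero a
  intro b
  simp [h b]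

theorem det_perm_ne {K : Type} [Field K] {n : ℕ} {X : Type} [DecidableEq X] (f g : Fin n → X)
    (hf : Function.Injective f) (hg : Function.Injective g) (h : ∀ b, ∃ a, f a = g b) :
    Matrix.det (Matrix.of fun a b : Fin n => if f a = g b then (1 : K) else 0) ≠ 0 := by
  choose σ hσ using h
  have hinj : Function.Injective σ := by
    intro b b' hb
    apply hg
    rw [← hσ b, ← hσ b', hb]
  have hbij : Function.Bijective σ := Finite.injective_iff_bijective.mp hinj
  have e : (Matrix.of fun a b : Fin n => if f a = g b then (1 : K) else 0) =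
      (1 : Matrix (Fin n) (Fin n) K).submatrix id (Equiv.ofBijective σ hbij) := by
    ext a b
    simp only [Matrix.of_apply, Matrix.submatrix_apply, id, Equiv.ofBijective_apply,
      Matrix.one_apply, ← hσ b, hf.eq_iff]
  rw [e, Matrix.det_permute', Matrix.det_one, mul_one]
  rcases Int.units_eq_one_or (Equiv.Perm.sign (Equiv.ofBijective σ hbij)) with h | h
  · rw [h]; simp
  · rw [h]; simp

theorem linM_surj {K : Type} [Field K] (d q r : ℕ)
    (w : Fin r → Fin (q + 2) → Fin d → K)
    (t : {s : Finset (Fin d) // s.card = q + 1} → Fin r → Fin (q + 2) → K)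
    (H2 : ∀ (J : {s : Finset (Fin d) // s.card = q + 1}) (c : Fin (q + 1) → Fin d),
      ∑ i, (cm (t J i) (w i) c).det =
        Matrix.det (Matrix.of fun a b : Fin (q + 1) =>
          if J.1.orderEmbOfFin J.2 a = c b then (1 : K) else 0)) :
    Function.Surjective (linM d q r w) := by
  have h1 : ∀ J0 : {s : Finset (Fin d) // s.card = q + 1},
      linM d q r w (t J0) = Pi.single J0 1 := by
    intro J0
    funext J
    rw [linM_apply, H2]
    by_cases hJ : J = J0
    · subst hJ
      rw [Pi.single_eq_same]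
      have : (Matrix.of fun a b : Fin (q + 1) =>
          if J.1.orderEmbOfFin J.2 a = J.1.orderEmbOfFin J.2 b then (1 : K) else 0) = 1 := by
        ext a b
        simp only [Matrix.of_apply, Matrix.one_apply, EmbeddingLike.apply_eq_iff_eq]
      rw [this, Matrix.det_one]
    · rw [Pi.single_eq_of_ne hJ]
      have hx : ∃ x ∈ J0.1, x ∉ J.1 := by
        by_contra hcon
        push Not at hcon
        apply hJ
        have hsub : J0.1 ⊆ J.1 := hcon
        apply Subtype.ext
        exact (Finset.eq_of_subset_of_card_le hsub (by rw [J0.2, J.2])).symm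
      obtain ⟨x, hx0, hx1⟩ := hx
      have hr : x ∈ Set.range (J0.1.orderEmbOfFin J0.2) := by
        rw [Finset.range_orderEmbOfFin]
        exact hx0
      obtain ⟨a, ha⟩ := hr
      apply det_row_zero _ _ a
      intro b hb
      apply hx1
      rw [← ha, hb]
      exact Finset.orderEmbOfFin_mem _ _ _
  intro y
  refine ⟨∑ J, y J • t J, ?_⟩
  rw [map_sum]
  simp only [map_smul, h1]
  funext J
  simp [Finset.sum_apply, Pi.single_apply]

theorem linKap_inj {K : Type} [Field K] (d q r : ℕ) (hqd : q + 1 ≤ d)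
    (w : Fin r → Fin (q + 2) → Fin d → K)
    (t : {s : Finset (Fin d) // s.card = q + 1} → Fin r → Fin (q + 2) → K)
    (H2 : ∀ (J : {s : Finset (Fin d) // s.card = q + 1}) (c : Fin (q + 1) → Fin d),
      ∑ i, (cm (t J i) (w i) c).det =
        Matrix.det (Matrix.of fun a b : Fin (q + 1) =>
          if J.1.orderEmbOfFin J.2 a = c b then (1 : K) else 0)) :
    Function.Injective (linKap d q r w) := by
  rw [← LinearMap.ker_eq_bot, LinearMap.ker_eq_bot']
  intro ξ hξ
  by_contra hne
  obtain ⟨c0, hc0⟩ : ∃ c0, ξ c0 ≠ 0 := by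
    by_contra hcon
    push Not at hcon
    exact hne (funext hcon)
  have hz : ∀ i a, ∑ c, ξ c * w i a c = 0 := by
    intro i a
    rw [← linKap_apply, hξ]
    rfl
  obtain ⟨s, hs, hscard⟩ := Finset.exists_subset_card_eq
    (s := (Finset.univ : Finset (Fin d)).erase c0) (n := q) (by
      rw [Finset.card_erase_of_mem (Finset.mem_univ _), Finset.card_univ, Fintype.card_fin]
      omega)
  have hc0s : c0 ∉ s := fun h => by
    have := hs h
    simp at this
  have hJc : (insert c0 s).card = q + 1 := by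
    rw [Finset.card_insert_of_notMem hc0s, hscard]
  obtain ⟨e, he⟩ : ∃ e : Fin q ↪o Fin d, e = s.orderEmbOfFin hscard := ⟨_, rfl⟩
  have hes : ∀ b, e b ∈ s := by
    intro b
    rw [he]
    exact Finset.orderEmbOfFin_mem _ _ _
  have hlin : ∀ (u : Fin (q + 2) → K) (i : Fin r),
      ∑ c, ξ c * (cm u (w i) (Fin.cons c e : Fin (q + 1) → Fin d)).det = 0 := by
    intro u i
    have h3 : ∀ c, cm u (w i) (Fin.cons c e : Fin (q + 1) → Fin d) =
        (cm u (w i) (Fin.cons c0 e : Fin (q + 1) → Fin d)).updateCol 1 (fun a => w i a c) := by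
      intro c
      ext a b
      rw [Matrix.updateCol_apply]
      by_cases hb : b = 1
      · subst hb
        rw [if_pos rfl]
        have : (1 : Fin (q + 2)) = Fin.succ 0 := rfl
        rw [this]
        simp [cm]
      · rw [if_neg hb]
        revert hb
        refine Fin.cases ?_ (fun b => ?_) b
        · intro _
          simp [cm]
        · intro hb
          have hb0 : b ≠ 0 := by
            rintro rfl
            exact hb rfl
          obtain ⟨b', rfl⟩ := Fin.exists_succ_eq.mpr hb0
          simp [cm]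
    have h4 : ∀ c, ξ c * (cm u (w i) (Fin.cons c e : Fin (q + 1) → Fin d)).det =
        ((cm u (w i) (Fin.cons c0 e : Fin (q + 1) → Fin d)).updateCol 1
          (ξ c • fun a => w i a c)).det := by
      intro c
      rw [h3 c, Matrix.det_updateCol_smul]
    obtain ⟨A, hA⟩ : ∃ A, A = cm u (w i) (Fin.cons c0 e : Fin (q + 1) → Fin d) := ⟨_, rfl⟩
    simp only [h4, ← hA]
    have h5 : ∀ S : Finset (Fin d), ∑ c ∈ S, (A.updateCol 1 (ξ c • fun a => w i a c)).det =
        (A.updateCol 1 (∑ c ∈ S, (ξ c • fun a => w i a c))).det := by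
      intro S
      induction S using Finset.induction_on with
      | empty =>
        rw [Finset.sum_empty, Finset.sum_empty]
        symm
        apply Matrix.det_eq_zero_of_column_eq_zero 1
        intro a
        simp
      | insert x S hx ih =>
        rw [Finset.sum_insert hx, Finset.sum_insert hx, Matrix.det_updateCol_add, ih]
    rw [h5]
    apply Matrix.det_eq_zero_of_column_eq_zero 1
    intro a
    rw [Matrix.updateCol_self, Finset.sum_apply]
    exact hz i a
  have hsum : ∑ c, ξ c * Matrix.det (Matrix.of fun a b : Fin (q + 1) =>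
      if (insert c0 s).orderEmbOfFin hJc a = (Fin.cons c e : Fin (q + 1) → Fin d) b
        then (1 : K) else 0) = 0 := by
    have h6 : ∀ c, Matrix.det (Matrix.of fun a b : Fin (q + 1) =>
        if (insert c0 s).orderEmbOfFin hJc a = (Fin.cons c e : Fin (q + 1) → Fin d) b
          then (1 : K) else 0) =
        ∑ i, (cm (t ⟨insert c0 s, hJc⟩ i) (w i) (Fin.cons c e : Fin (q + 1) → Fin d)).det :=
      fun c => (H2 ⟨insert c0 s, hJc⟩ (Fin.cons c e : Fin (q + 1) → Fin d)).symm
    simp only [h6, Finset.mul_sum]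
    rw [Finset.sum_comm]
    apply Finset.sum_eq_zero
    intro i _
    exact hlin _ _
  have hrow : ∃ a, (insert c0 s).orderEmbOfFin hJc a = c0 := by
    have : c0 ∈ Set.range ((insert c0 s).orderEmbOfFin hJc) := by
      rw [Finset.range_orderEmbOfFin]
      simp
    exact this
  obtain ⟨a0, ha0⟩ := hrow
  rw [Finset.sum_eq_single c0] at hsum
  · rcases mul_eq_zero.mp hsum with h | h
    · exact hc0 h
    · refine det_perm_ne _ _ ((insert c0 s).orderEmbOfFin hJc).injective ?_ ?_ h
      · rw [Fin.cons_injective_iff]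
        refine ⟨?_, e.injective⟩
        rintro ⟨b, hb⟩
        exact hc0s (hb ▸ hes b)
      · intro b
        have : (Fin.cons c0 e : Fin (q + 1) → Fin d) b ∈
            Set.range ((insert c0 s).orderEmbOfFin hJc) := by
          rw [Finset.range_orderEmbOfFin]
          refine Fin.cases ?_ (fun b => ?_) b
          · simp
          · rw [Fin.cons_succ]
            exact Finset.mem_coe.mpr (Finset.mem_insert_of_mem (hes b))
        exact this
  · intro c _ hc
    have : Matrix.det (Matrix.of fun a b : Fin (q + 1) =>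
      if (insert c0 s).orderEmbOfFin hJc a = (Fin.cons c e : Fin (q + 1) → Fin d) b
        then (1 : K) else 0) = 0 := by
      apply det_row_zero _ _ a0
      rw [ha0]
      intro b
      refine Fin.cases ?_ (fun b => ?_) b
      · rw [Fin.cons_zero]
        exact hc.symm
      · rw [Fin.cons_succ]
        intro h
        exact hc0s (h ▸ hes b)
    rw [this, mul_zero]
  · intro h
    exact absurd (Finset.mem_univ _) h

theorem linAlg {K : Type} [Field K] (d q r : ℕ) (hqd : q + 1 ≤ d)
    (w : Fin r → Fin (q + 2) → Fin d → K)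
    (t : {s : Finset (Fin d) // s.card = q + 1} → Fin r → Fin (q + 2) → K)
    (H1 : ∀ c : Fin (q + 2) → Fin d, ∑ i, Matrix.det (Matrix.of fun a b => w i a (c b)) = 0)
    (H2 : ∀ (J : {s : Finset (Fin d) // s.card = q + 1}) (c : Fin (q + 1) → Fin d),
      ∑ i, (cm (t J i) (w i) c).det =
        Matrix.det (Matrix.of fun a b : Fin (q + 1) =>
          if J.1.orderEmbOfFin J.2 a = c b then (1 : K) else 0)) :
    d.choose (q + 1) + d ≤ (q + 2) * r := by
  have hsurj := linM_surj d q r w t H2
  have hinj := linKap_inj d q r hqd w t H2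
  have h1 := LinearMap.finrank_range_add_finrank_ker (linM d q r w)
  have h2 : Module.finrank K (LinearMap.range (linM d q r w)) = d.choose (q + 1) := by
    rw [LinearMap.range_eq_top.mpr hsurj, finrank_top, Module.finrank_pi, Fintype.card_finset_len,
      Fintype.card_fin]
  have h3 : Module.finrank K (LinearMap.range (linKap d q r w)) = d := by
    rw [LinearMap.finrank_range_of_inj hinj, Module.finrank_pi, Fintype.card_fin]
  have h4 : LinearMap.range (linKap d q r w) ≤ LinearMap.ker (linM d q r w) := by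
    rintro _ ⟨ξ, rfl⟩
    exact linM_kap d q r w H1 ξ
  have h5 := Submodule.finrank_mono h4
  have h6 : Module.finrank K (Fin r → Fin (q + 2) → K) = r * (q + 2) := by
    rw [Module.finrank_pi_fintype]
    simp
  rw [h2, h6] at h1
  rw [h3] at h5
  nlinarith



/-! ### valuations -/

/-- two vectors whose 2x2 minors vanish -/
def Dep {R : Type} [Mul R] {N : ℕ} (u v : Fin N → R) : Prop := ∀ c c', u c * v c' = u c' * v c

theorem ex_num {A : Type} [CommRing A] [IsDomain A] (a : (FractionRing A)ˣ) :
    ∃ x y : A, x ≠ 0 ∧ y ≠ 0 ∧ algebraMap A (FractionRing A) x =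
        (a : FractionRing A) * algebraMap A (FractionRing A) y := by
  have hinj := IsFractionRing.injective A (FractionRing A)
  obtain ⟨x, y, hy, hxy⟩ := IsFractionRing.div_surjective (A := A) (a : FractionRing A)
  have hy0 : y ≠ 0 := nonZeroDivisors.ne_zero hy
  have hy1 : algebraMap A (FractionRing A) y ≠ 0 := by
    intro h
    exact hy0 (hinj (by rw [h, map_zero]))
  have h1 : algebraMap A (FractionRing A) x =
      (a : FractionRing A) * algebraMap A (FractionRing A) y := by
    rw [← hxy, div_mul_cancel₀ _ hy1]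
  refine ⟨x, y, ?_, hy0, h1⟩
  intro hx
  rw [hx, map_zero] at h1
  exact mul_ne_zero a.ne_zero hy1 h1.symm

theorem ex_common {A : Type} [CommRing A] [IsDomain A] (a b : (FractionRing A)ˣ)
    (hab : (a : FractionRing A) + b = 1) :
    ∃ f g : A, f ≠ 0 ∧ g ≠ 0 ∧ f + g ≠ 0 ∧
      algebraMap A (FractionRing A) f =
        (a : FractionRing A) * algebraMap A (FractionRing A) (f + g) ∧
      algebraMap A (FractionRing A) g =
        (b : FractionRing A) * algebraMap A (FractionRing A) (f + g) := by
  have hinj := IsFractionRing.injective A (FractionRing A)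
  obtain ⟨x, y, hx, hy, hxy⟩ := ex_num a
  obtain ⟨x', y', hx', hy', hxy'⟩ := ex_num b
  have h1 : x * y' + x' * y = y * y' := by
    apply hinj
    rw [map_add, map_mul, map_mul, map_mul, hxy, hxy']
    linear_combination (algebraMap A (FractionRing A) y *
      algebraMap A (FractionRing A) y') * hab
  refine ⟨x * y', x' * y, mul_ne_zero hx hy', mul_ne_zero hx' hy, ?_, ?_, ?_⟩
  · rw [h1]
    exact mul_ne_zero hy hy'
  · rw [h1, map_mul, map_mul, hxy]
    ring
  · rw [h1, map_mul, map_mul, hxy']
    ring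

/-- homomorphisms on the units of the fraction field from multiplicative-additive functions -/
theorem ext_units {A G : Type} [CommRing A] [IsDomain A] [AddCommGroup G] (w : A → G)
    (hw : ∀ f g, f ≠ 0 → g ≠ 0 → w (f * g) = w f + w g) :
    ∃ v : Additive (FractionRing A)ˣ →+ G, ∀ (a : (FractionRing A)ˣ) (f h : A), f ≠ 0 → h ≠ 0 →
      algebraMap A (FractionRing A) f = (a : FractionRing A) * algebraMap A (FractionRing A) h →
      v (Additive.ofMul a) = w f - w h := by
  have hinj := IsFractionRing.injective A (FractionRing A)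
  have hex := fun a : (FractionRing A)ˣ => ex_num a
  choose x y hx hy hxy using hex
  have hwd : ∀ (a : (FractionRing A)ˣ) (f h : A), f ≠ 0 → h ≠ 0 →
      algebraMap A (FractionRing A) f = (a : FractionRing A) * algebraMap A (FractionRing A) h →
      w (x a) - w (y a) = w f - w h := by
    intro a f h hf hh hfh
    have h1 : x a * h = f * y a := by
      apply hinj
      rw [map_mul, map_mul, hxy a, hfh]
      ring
    have h2 : w (x a) + w h = w f + w (y a) := by
      rw [← hw _ _ (hx a) hh, h1, hw _ _ hf (hy a)]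
    rw [sub_eq_sub_iff_add_eq_add]
    exact h2
  refine ⟨AddMonoidHom.mk' (fun a => w (x a.toMul) - w (y a.toMul)) ?_, ?_⟩
  · intro a b
    have h1 := hwd (a.toMul * b.toMul) (x a.toMul * x b.toMul) (y a.toMul * y b.toMul)
      (mul_ne_zero (hx _) (hx _)) (mul_ne_zero (hy _) (hy _)) (by
        rw [map_mul, map_mul, hxy, hxy, Units.val_mul]
        ring)
    rw [hw _ _ (hx _) (hx _), hw _ _ (hy _) (hy _)] at h1
    change w (x (a.toMul * b.toMul)) - w (y (a.toMul * b.toMul)) = _
    rw [h1]
    abel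
  · intro a f h hf hh hfh
    exact hwd a f h hf hh hfh

/-- the vector of a polynomial -/
noncomputable def vp (d : ℕ) (P : ℂ) (f : MvPolynomial (Fin d) (Polynomial ℂ)) :
    Fin (d + 1) → ℤ :=
  Fin.cons (α := fun _ => ℤ)
    ((Polynomial.rootMultiplicity P (MonomialOrder.lex.leadingCoeff f) : ℕ) : ℤ)
    (fun j => ((MonomialOrder.lex.degree f j : ℕ) : ℤ))

theorem vp_zero (d : ℕ) (P : ℂ) (f : MvPolynomial (Fin d) (Polynomial ℂ)) : vp d P f 0 =
    ((Polynomial.rootMultiplicity P (MonomialOrder.lex.leadingCoeff f) : ℕ) : ℤ) := rfl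

theorem vp_succ (d : ℕ) (P : ℂ) (f : MvPolynomial (Fin d) (Polynomial ℂ)) (j : Fin d) :
    vp d P f j.succ = ((MonomialOrder.lex.degree f j : ℕ) : ℤ) := rfl

theorem vp_mul (d : ℕ) (P : ℂ) (f g : MvPolynomial (Fin d) (Polynomial ℂ)) (hf : f ≠ 0)
    (hg : g ≠ 0) : vp d P (f * g) = vp d P f + vp d P g := by
  funext c
  refine Fin.cases ?_ (fun j => ?_) c
  · rw [Pi.add_apply, vp_zero, vp_zero, vp_zero, MonomialOrder.leadingCoeff_mul,
      Polynomial.rootMultiplicity_mul]
    · push_cast
      ring
    · exact mul_ne_zero (MonomialOrder.leadingCoeff_ne_zero_iff.2 hf)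
        (MonomialOrder.leadingCoeff_ne_zero_iff.2 hg)
  · rw [Pi.add_apply, vp_succ, vp_succ, vp_succ, MonomialOrder.degree_mul hf hg,
      Finsupp.add_apply]
    push_cast
    ring

theorem vp_congr (d : ℕ) (P : ℂ) (f g : MvPolynomial (Fin d) (Polynomial ℂ))
    (h1 : MonomialOrder.lex.degree f = MonomialOrder.lex.degree g)
    (h2 : Polynomial.rootMultiplicity P (MonomialOrder.lex.leadingCoeff f) =
      Polynomial.rootMultiplicity P (MonomialOrder.lex.leadingCoeff g)) :
    vp d P f = vp d P g := by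
  funext c
  refine Fin.cases ?_ (fun j => ?_) c
  · rw [vp_zero, vp_zero, h2]
  · rw [vp_succ, vp_succ, h1]

theorem rm_neg (P : ℂ) (q : Polynomial ℂ) :
    Polynomial.rootMultiplicity P (-q) = Polynomial.rootMultiplicity P q := by
  by_cases hq : q = 0
  · rw [hq, neg_zero]
  · have h1 : -q = Polynomial.C (-1) * q := by simp
    rw [h1, Polynomial.rootMultiplicity_mul, Polynomial.rootMultiplicity_C, zero_add]
    rw [← h1]
    exact neg_ne_zero.2 hq

theorem vp_dep (d : ℕ) (P : ℂ) (F G : MvPolynomial (Fin d) (Polynomial ℂ)) :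
    Dep (vp d P F - vp d P (F + G)) (vp d P G - vp d P (F + G)) := by
  rcases lt_trichotomy (MonomialOrder.lex.toSyn (MonomialOrder.lex.degree F))
    (MonomialOrder.lex.toSyn (MonomialOrder.lex.degree G)) with h | h | h
  · have h1 : vp d P G = vp d P (F + G) := by
      apply vp_congr
      · rw [MonomialOrder.degree_add_eq_right_of_lt h]
      · rw [add_comm F G, MonomialOrder.leadingCoeff_add_of_lt h]
    rw [h1, sub_self]
    intro c c'
    simp
  · have hD : MonomialOrder.lex.degree F = MonomialOrder.lex.degree G :=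
      MonomialOrder.lex.toSyn.injective h
    by_cases hlc : MonomialOrder.lex.leadingCoeff F + MonomialOrder.lex.leadingCoeff G = 0
    · have h1 : vp d P G = vp d P F := by
        apply vp_congr
        · exact hD.symm
        · rw [eq_neg_of_add_eq_zero_right hlc, rm_neg]
      rw [h1]
      intro c c'
      ring
    · have hH2 : MonomialOrder.lex.degree (F + G) = MonomialOrder.lex.degree F := by
        apply MonomialOrder.lex.toSyn.injective
        apply le_antisymm
        · refine MonomialOrder.degree_add_le.trans ?_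
          rw [← hD, sup_idem]
        · apply MonomialOrder.le_degree
          rw [mem_support_iff, coeff_add]
          have e2 : coeff (MonomialOrder.lex.degree F) G = MonomialOrder.lex.leadingCoeff G := by
            rw [hD]
            rfl
          rw [e2]
          exact hlc
      have hz1 : ∀ j : Fin d, (vp d P F - vp d P (F + G)) j.succ = 0 := by
        intro j
        rw [Pi.sub_apply, vp_succ, vp_succ, hH2, sub_self]
      have hz2 : ∀ j : Fin d, (vp d P G - vp d P (F + G)) j.succ = 0 := by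
        intro j
        rw [Pi.sub_apply, vp_succ, vp_succ, hH2, hD, sub_self]
      intro c c'
      refine Fin.cases ?_ (fun j => ?_) c
      · refine Fin.cases rfl (fun j' => ?_) c'
        rw [hz1, hz2, mul_zero, zero_mul]
      · rw [hz1, hz2, mul_zero, zero_mul]
  · have h1 : vp d P F = vp d P (F + G) := by
      apply vp_congr
      · rw [MonomialOrder.degree_add_of_lt h]
      · rw [MonomialOrder.leadingCoeff_add_of_lt h]
    rw [h1, sub_self]
    intro c c'
    simp

/-- Family of homomorphisms: for each `P : ℂ` a homomorphism from `F_m^×` to `ℤ^(d+1)` (`m = d+1`),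
all coordinates except the first one independent of `P`. -/
theorem exists_val (d : ℕ) : ∃ v : ℂ → Additive (RatField (d + 1))ˣ →+ (Fin (d + 1) → ℤ),
    (∀ P Q a (j : Fin d), v P a j.succ = v Q a j.succ) ∧
    (∀ P (a b : (RatField (d + 1))ˣ), (a : RatField (d + 1)) + b = 1 →
      Dep (v P (Additive.ofMul a)) (v P (Additive.ofMul b))) ∧
    (∀ P (a : (RatField (d + 1))ˣ) (j : Fin d), (a : RatField (d + 1)) =
        algebraMap (MvPolynomial (Fin (d + 1)) ℂ) (RatField (d + 1)) (X j.succ) →
      v P (Additive.ofMul a) = Pi.single j.succ 1) ∧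
    (∀ P Q (a : (RatField (d + 1))ˣ), (a : RatField (d + 1)) =
        algebraMap (MvPolynomial (Fin (d + 1)) ℂ) (RatField (d + 1)) (X 0 - C Q) →
      v P (Additive.ofMul a) = if P = Q then Pi.single 0 1 else 0) := by
  obtain ⟨e, he⟩ : ∃ e : MvPolynomial (Fin (d + 1)) ℂ ≃ₐ[ℂ] MvPolynomial (Fin d) (Polynomial ℂ),
      e = (renameEquiv ℂ (finSuccEquiv d)).trans (optionEquivRight ℂ (Fin d)) := ⟨_, rfl⟩
  have he0 : e (X 0) = C Polynomial.X := by
    rw [he, AlgEquiv.trans_apply, renameEquiv_apply, rename_X, finSuccEquiv_zero,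
      optionEquivRight_X_none]
  have hes : ∀ j : Fin d, e (X j.succ) = X j := by
    intro j
    rw [he, AlgEquiv.trans_apply, renameEquiv_apply, rename_X, finSuccEquiv_succ,
      optionEquivRight_X_some]
  have heC : ∀ Q : ℂ, e (C Q) = C (Polynomial.C Q) := by
    intro Q
    rw [he, AlgEquiv.trans_apply, renameEquiv_apply, rename_C, optionEquivRight_C]
  have hne : ∀ f : MvPolynomial (Fin (d + 1)) ℂ, f ≠ 0 → e f ≠ 0 := by
    intro f hf h
    exact hf (e.injective (by rw [h, map_zero]))
  have hv := fun P : ℂ => ext_units (A := MvPolynomial (Fin (d + 1)) ℂ)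
    (fun f => vp d P (e f)) (by
      intro f g hf hg
      simp only [map_mul]
      exact vp_mul d P _ _ (hne f hf) (hne g hg))
  choose v hv using hv
  have hvp1 : ∀ P, vp d P (e 1) = 0 := by
    intro P
    have h := vp_mul d P (e 1) (e 1) (hne 1 one_ne_zero) (hne 1 one_ne_zero)
    rw [← map_mul, mul_one] at h
    simpa using h
  refine ⟨v, ?_, ?_, ?_, ?_⟩
  · intro P Q a j
    obtain ⟨x, y, hx, hy, hxy⟩ := ex_num a.toMul
    have h1 := hv P a.toMul x y hx hy hxy
    have h2 := hv Q a.toMul x y hx hy hxy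
    rw [ofMul_toMul] at h1 h2
    rw [h1, h2]
    simp only [Pi.sub_apply, vp_succ]
  · intro P a b hab
    obtain ⟨f, g, hf, hg, hfg, h1, h2⟩ := ex_common a b hab
    rw [hv P a f (f + g) hf hfg h1, hv P b g (f + g) hg hfg h2]
    simp only [map_add]
    exact vp_dep d P _ _
  · intro P a j ha
    have h1 := hv P a (X j.succ) 1 (X_ne_zero _) one_ne_zero (by rw [ha, map_one, mul_one])
    rw [h1, hvp1, sub_zero, hes]
    funext c
    refine Fin.cases ?_ (fun i => ?_) c
    · rw [vp_zero, MonomialOrder.leadingCoeff_X]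
      have h2 : Polynomial.rootMultiplicity P (1 : Polynomial ℂ) = 0 :=
        Polynomial.rootMultiplicity_C 1 P
      rw [h2, Pi.single_eq_of_ne (Fin.succ_ne_zero j).symm]
      simp
    · rw [vp_succ, MonomialOrder.degree_X]
      by_cases hij : i = j
      · subst hij
        simp
      · rw [Finsupp.single_eq_of_ne (by tauto), Pi.single_eq_of_ne (by
          intro h
          exact hij (Fin.succ_injective _ h))]
        simp
  · intro P Q a ha
    have hne0 : (X 0 - C Q : MvPolynomial (Fin (d + 1)) ℂ) ≠ 0 := by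
      intro h
      have h2 := congrArg e h
      rw [map_sub, he0, heC, map_zero, ← map_sub] at h2
      exact Polynomial.X_sub_C_ne_zero Q (C_injective _ _ (by rw [h2, map_zero]))
    have h1 := hv P a (X 0 - C Q) 1 hne0 one_ne_zero (by rw [ha, map_one, mul_one])
    rw [h1, hvp1, sub_zero, map_sub, he0, heC, ← map_sub]
    funext c
    refine Fin.cases ?_ (fun i => ?_) c
    · rw [vp_zero, MonomialOrder.leadingCoeff_C, Polynomial.rootMultiplicity_X_sub_C]
      split_ifs <;> simp
    · rw [vp_succ, MonomialOrder.degree_C]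
      split_ifs <;> simp [Fin.succ_ne_zero]



/-! ### coordinates on Milnor K-theory mod p -/

theorem det_zero_of_dep {p : ℕ} [Fact p.Prime] {n : ℕ} (A : Matrix (Fin n) (Fin n) (ZMod p))
    (i j : Fin n) (hij : i ≠ j) (h : ∀ b b', A i b * A j b' = A i b' * A j b) : A.det = 0 := by
  by_cases h0 : ∃ b0, A i b0 ≠ 0
  · obtain ⟨b0, hb0⟩ := h0
    have hrow : A j = (A j b0 / A i b0) • A i := by
      funext b
      have := h b0 b
      rw [Pi.smul_apply, smul_eq_mul, div_mul_eq_mul_div, eq_div_iff hb0]
      rw [mul_comm, this, mul_comm]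
    have h1 : A = A.updateRow j ((A j b0 / A i b0) • A i) := by
      rw [← hrow, Matrix.updateRow_eq_self]
    rw [h1, Matrix.det_updateRow_smul]
    have h2 : (A.updateRow j (A i)).det = 0 := by
      apply Matrix.det_zero_of_row_eq hij
      rw [Matrix.updateRow_self, Matrix.updateRow_ne hij]
    rw [h2, mul_zero]
  · push Not at h0
    exact Matrix.det_eq_zero_of_row_eq_zero i h0

/-- coordinates of classes -/
theorem exists_coord (p : ℕ) [Fact p.Prime] (F : Type) [Field F] (N n : ℕ)
    (v : Additive Fˣ →+ (Fin N → ℤ))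
    (hv : ∀ (a b : Fˣ), (a : F) + b = 1 → Dep (v (Additive.ofMul a)) (v (Additive.ofMul b)))
    (c : Fin n → Fin N) :
    ∃ D : MilnorKMod F n p →+ ZMod p, ∀ a : Fin n → Fˣ,
      D (symbol F n p a) = Matrix.det (Matrix.of fun i b => ((v (Additive.ofMul (a i)) (c b) : ℤ) : ZMod p)) := by
  let L : Additive Fˣ →ₗ[ℤ] (Fin n → ZMod p) := AddMonoidHom.toIntLinearMap
    { toFun := fun a b => ((v a (c b) : ℤ) : ZMod p)
      map_zero' := by
        funext b
        simp
      map_add' := fun a a' => by
        funext b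
        simp }
  have hL : ∀ a b, L a b = ((v a (c b) : ℤ) : ZMod p) := fun a b => rfl
  let M : MultilinearMap ℤ (fun _ : Fin n => Additive Fˣ) (ZMod p) :=
    ((Matrix.detRowAlternating (n := Fin n) (R := ZMod p)).toMultilinearMap.restrictScalars
      ℤ).compLinearMap (fun _ => L)
  have hM : ∀ a : Fin n → Additive Fˣ, M a = Matrix.det (Matrix.of fun i b => L (a i) b) :=
    fun a => rfl
  let T : Tens F n →ₗ[ℤ] ZMod p := PiTensorProduct.lift M
  have hTt : ∀ a : Fin n → Additive Fˣ, T (PiTensorProduct.tprod ℤ a) = M a := fun a =>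
    PiTensorProduct.lift.tprod a
  have hT : steinberg F n ≤ LinearMap.ker T := by
    unfold steinberg
    rw [Submodule.span_le]
    rintro t ⟨a, ⟨i, j, hij, hsum⟩, rfl⟩
    rw [SetLike.mem_coe, LinearMap.mem_ker, hTt, hM]
    apply det_zero_of_dep _ i j hij
    intro b b'
    simp only [Matrix.of_apply, hL]
    have h := hv _ _ hsum (c b) (c b')
    exact_mod_cast congrArg (fun z : ℤ => (z : ZMod p)) h
  let T' : MilnorK F n →ₗ[ℤ] ZMod p := (steinberg F n).liftQ T hT
  have hT' : LinearMap.range (LinearMap.lsmul ℤ (MilnorK F n) (p : ℤ)) ≤ LinearMap.ker T' := by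
    rintro x ⟨y, rfl⟩
    rw [LinearMap.mem_ker, LinearMap.lsmul_apply, map_smul]
    simp
  refine ⟨((LinearMap.range (LinearMap.lsmul ℤ (MilnorK F n) (p : ℤ))).liftQ T' hT').toAddMonoidHom,
    fun a => ?_⟩
  have h1 : T (PiTensorProduct.tprod ℤ fun i => Additive.ofMul (a i)) = Matrix.det (Matrix.of
      fun i b => ((v (Additive.ofMul (a i)) (c b) : ℤ) : ZMod p)) := by
    rw [hTt, hM]
    rfl
  rw [← h1]
  rfl



/-! ### the main theorem -/

theorem X0_sub_ne {d : ℕ} (c : ℂ) : (X 0 - C c : MvPolynomial (Fin (d + 1)) ℂ) ≠ 0 := by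
  intro h
  have := congrArg (MvPolynomial.eval fun _ => c + 1) h
  simp at this

theorem exists_class (p : ℕ) [Fact p.Prime] (d q : ℕ) (hqd : q + 1 ≤ d) :
    ∃ ξ : MilnorKMod (RatField (d + 1)) (q + 2) p, ∀ r, IsSumOfSymbols _ (q + 2) p r ξ →
      d.choose (q + 1) + d ≤ (q + 2) * r := by
  classical
  obtain ⟨v, hv1, hv2, hv3, hv4⟩ := exists_val d
  let S := {s : Finset (Fin d) // s.card = q + 1}
  let γ : S → ℂ := fun J => (((Fintype.equivFin S J : Fin _) : ℕ) : ℂ)
  have hγ : Function.Injective γ := by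
    intro J J' h
    have h1 : ((Fintype.equivFin S J : Fin _) : ℕ) = ((Fintype.equivFin S J' : Fin _) : ℕ) :=
      Nat.cast_injective h
    exact (Fintype.equivFin S).injective (Fin.ext h1)
  have hinj : Function.Injective (algebraMap (MvPolynomial (Fin (d + 1)) ℂ) (RatField (d + 1))) :=
    IsFractionRing.injective _ _
  let u0 : S → (RatField (d + 1))ˣ := fun J => Units.mk0
    (algebraMap (MvPolynomial (Fin (d + 1)) ℂ) (RatField (d + 1)) (X 0 - C (γ J)))
    (by
      intro h
      exact X0_sub_ne (γ J) (hinj (by rw [h, map_zero])))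
  let x : Fin d → (RatField (d + 1))ˣ := fun j => Units.mk0
    (algebraMap (MvPolynomial (Fin (d + 1)) ℂ) (RatField (d + 1)) (X j.succ))
    (by
      intro h
      exact MvPolynomial.X_ne_zero j.succ (hinj (by rw [h, map_zero])))
  let sy : S → Fin (q + 2) → (RatField (d + 1))ˣ := fun J =>
    Fin.cons (u0 J) fun b => x (J.1.orderEmbOfFin J.2 b)
  refine ⟨∑ J, symbol (RatField (d + 1)) (q + 2) p (sy J), ?_⟩
  rintro r ⟨a, ha⟩
  have hu0 : ∀ P J, v P (Additive.ofMul (u0 J)) = if P = γ J then Pi.single 0 1 else 0 :=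
    fun P J => hv4 P (γ J) (u0 J) rfl
  have hx : ∀ P j, v P (Additive.ofMul (x j)) = Pi.single j.succ 1 := fun P j => hv3 P (x j) j rfl
  refine linAlg (K := ZMod p) d q r hqd
    (fun i j c => ((v 0 (Additive.ofMul (a i j)) c.succ : ℤ) : ZMod p))
    (fun J i j => ((v (γ J) (Additive.ofMul (a i j)) 0 : ℤ) : ZMod p)) ?_ ?_
  · intro c
    obtain ⟨D, hD⟩ := exists_coord p (RatField (d + 1)) (d + 1) (q + 2) (v 0) (hv2 0)
      (fun b => (c b).succ)
    have h1 := congrArg D ha
    rw [map_sum, map_sum] at h1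
    simp only [hD] at h1
    rw [← h1]
    refine Finset.sum_eq_zero fun J _ => ?_
    refine Matrix.det_eq_zero_of_row_eq_zero 0 fun b => ?_
    simp only [Matrix.of_apply]
    have : sy J 0 = u0 J := rfl
    rw [this, hu0]
    split_ifs <;> simp
  · intro J c
    obtain ⟨D, hD⟩ := exists_coord p (RatField (d + 1)) (d + 1) (q + 2) (v (γ J)) (hv2 (γ J))
      (Fin.cons 0 fun b => (c b).succ)
    have h1 := congrArg D ha
    rw [map_sum, map_sum] at h1
    simp only [hD] at h1
    have h2 : ∀ i, (cm (fun j => ((v (γ J) (Additive.ofMul (a i j)) 0 : ℤ) : ZMod p))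
        (fun j c => ((v 0 (Additive.ofMul (a i j)) c.succ : ℤ) : ZMod p)) c) =
        (Matrix.of fun j b => ((v (γ J) (Additive.ofMul (a i j))
          ((Fin.cons 0 fun b => (c b).succ : Fin (q + 2) → Fin (d + 1)) b) : ℤ) : ZMod p)) := by
      intro i
      ext j b
      refine Fin.cases ?_ (fun b' => ?_) b
      · simp [cm]
      · simp [cm, hv1 (γ J) 0]
    simp only [h2]
    rw [← h1, Finset.sum_eq_single J]
    · rw [Matrix.det_succ_row_zero, Finset.sum_eq_single 0]
      · simp only [Matrix.of_apply, Fin.cons_zero]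
        have e0 : sy J 0 = u0 J := rfl
        rw [e0, hu0, if_pos rfl]
        simp only [Pi.single_eq_same]
        have e1 : (Matrix.submatrix (Matrix.of fun i b => ((v (γ J) (Additive.ofMul (sy J i))
            ((Fin.cons 0 fun b => (c b).succ : Fin (q + 2) → Fin (d + 1)) b) : ℤ) : ZMod p))
            Fin.succ (Fin.succAbove 0)) = (Matrix.of fun a b : Fin (q + 1) =>
              if J.1.orderEmbOfFin J.2 a = c b then (1 : ZMod p) else 0) := by
          ext i b
          have e2 : sy J i.succ = x (J.1.orderEmbOfFin J.2 i) := rfl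
          simp only [Matrix.submatrix_apply, Matrix.of_apply, Fin.succAbove_zero, Fin.cons_succ, e2, hx]
          by_cases h : J.1.orderEmbOfFin J.2 i = c b
          · rw [if_pos h, ← h]; simp
          · rw [if_neg h, Pi.single_eq_of_ne]
            · simp
            · intro h3; exact h (Fin.succ_injective _ h3).symm
        rw [e1]
        simp
      · intro b _ hb
        have e0 : sy J 0 = u0 J := rfl
        obtain ⟨b', rfl⟩ := Fin.exists_succ_eq.2 hb
        simp only [Matrix.of_apply, Fin.cons_succ]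
        rw [e0, hu0, if_pos rfl, Pi.single_eq_of_ne (Fin.succ_ne_zero _)]
        simp
      · intro h; exact absurd (Finset.mem_univ _) h
    · intro J' _ hJ'
      refine Matrix.det_eq_zero_of_row_eq_zero 0 fun b => ?_
      simp only [Matrix.of_apply]
      have e0 : sy J' 0 = u0 J' := rfl
      rw [e0, hu0, if_neg (fun h => hJ' (hγ h).symm)]
      simp
    · intro h; exact absurd (Finset.mem_univ _) h

/-- lower bound for the symbol length -/
theorem result (p : ℕ) [Fact p.Prime] (m n : ℕ) (hn : 2 ≤ n) (hm : n ≤ m) :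
    (∃ ξ : MilnorKMod (RatField m) n p, ∀ r, IsSumOfSymbols (RatField m) n p r ξ →
      (m - 1).choose (n - 1) + (m - 1) ≤ n * r) ∧
    (((m - 1).choose (n - 1) + (m - 1) : ℕ) : ℕ∞) ≤ n * symbolLength (RatField m) n p := by
  obtain ⟨d, rfl⟩ : ∃ d, m = d + 1 := ⟨m - 1, by omega⟩
  obtain ⟨q, rfl⟩ : ∃ q, n = q + 2 := ⟨n - 2, by omega⟩
  obtain ⟨ξ, hξ⟩ := exists_class p d q (by omega)
  have e1 : d + 1 - 1 = d := by omega
  have e2 : q + 2 - 1 = q + 1 := by omega
  rw [e1, e2]
  refine ⟨⟨ξ, hξ⟩, ?_⟩
  have hle : (⨅ (r : ℕ) (_ : IsSumOfSymbols (RatField (d + 1)) (q + 2) p r ξ), (r : ℕ∞)) ≤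
      symbolLength (RatField (d + 1)) (q + 2) p :=
    le_iSup (fun ξ => ⨅ (r : ℕ) (_ : IsSumOfSymbols (RatField (d + 1)) (q + 2) p r ξ), (r : ℕ∞)) ξ
  by_cases hR : ∃ r, IsSumOfSymbols (RatField (d + 1)) (q + 2) p r ξ
  · classical
    have h0 : ((Nat.find hR : ℕ) : ℕ∞) ≤ symbolLength (RatField (d + 1)) (q + 2) p := by
      refine le_trans (le_iInf₂ fun r hr => ?_) hle
      exact_mod_cast Nat.find_min' hR hr
    calc ((d.choose (q + 1) + d : ℕ) : ℕ∞) ≤ (((q + 2) * Nat.find hR : ℕ) : ℕ∞) := by
          exact_mod_cast hξ _ (Nat.find_spec hR)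
      _ = ((q + 2 : ℕ) : ℕ∞) * (Nat.find hR : ℕ) := by push_cast; rfl
      _ ≤ _ := by gcongr
  · have htop : symbolLength (RatField (d + 1)) (q + 2) p = ⊤ := by
      refine top_le_iff.1 (le_trans (le_iInf₂ fun r hr => ?_) hle)
      exact absurd ⟨r, hr⟩ hR
    rw [htop, ENat.mul_top (by positivity)]
    exact le_top

end Pool.Agent.Results.MP_8363a4_al.LowerBound
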